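import Mathlib
import Pool.Agent.Helper82_NIB.Stmts

/-!
# NIB: module BOK (a state gives the data of a random bite)
-/

set_option autoImplicit false
set_option linter.unusedSectionVars false

open Finset Matrix

namespace Pool.Agent.NIB.H9

theorem bok : BokStmt := by
  intro V C _ _ _ _ E S de r h Lam th kap hS hE hde hh0 hLam hth0 hth1 hthL
  refine ⟨fun a => (Fintype.equivFin (V × V) a : ℕ), ?_⟩
  have hole_out : ∀ c w, rs (S.x c) w ≠ 0 → S.hole c w := by
    intro c w hw
    rcases w with ⟨w, _ | _⟩
    · rw [rs_inn] at hw
      obtain ⟨u, _, hu⟩ := Finset.exists_ne_zero_of_sum_ne_zero hw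
      exact hS.xinn c u w hu
    · rw [rs_out] at hw
      obtain ⟨v, _, hv⟩ := Finset.exists_ne_zero_of_sum_ne_zero hw
      exact hS.xout c w v hv
  exact
    { ordInj := fun a a' haa => (Fintype.equivFin (V × V)).injective (Fin.ext haa)
      x0 := hS.x0
      xle := hS.xle
      row := hS.row
      lam := by
        intro u v
        classical
        have h1 : ∑ c, S.x c u v ≤ ∑ c ∈ univ.filter fun c => S.hole c (u, true), de := by
          rw [← Finset.sum_filter_add_sum_filter_not univ (fun c => S.hole c (u, true))]
          have h2 : ∑ c ∈ univ.filter (fun c => ¬ S.hole c (u, true)), S.x c u v = 0 := by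
            refine Finset.sum_eq_zero fun c hc => ?_
            by_contra hne
            exact (Finset.mem_filter.1 hc).2 (hS.xout c u v hne)
          rw [h2, add_zero]
          exact Finset.sum_le_sum fun c _ => hS.xle c u v
        rw [Finset.sum_const, nsmul_eq_mul] at h1
        have h3 := hS.hcnt (u, true)
        rw [Set.ncard_eq_toFinset_card', Set.toFinset_ofPred] at h3
        calc ∑ c, S.x c u v ≤ _ := h1
          _ ≤ h * de := mul_le_mul_of_nonneg_right (by convert h3) hde
          _ ≤ Lam := hLam
      kout := fun u => (Set.ncard_le_ncard (fun v hv => by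
        obtain ⟨c, hc⟩ := hv
        exact hS.xE c u v hc) (Set.toFinite _)).trans (hE.out u)
      kin := fun v => (Set.ncard_le_ncard (fun u hu => by
        obtain ⟨c, hc⟩ := hu
        exact hS.xE c u v hc) (Set.toFinite _)).trans (hE.inn v)
      stInj := fun c u u' v v' h1 h2 h3 =>
        hS.st3 c u u' (hS.xout c u v h1) (hS.xout c u' v' h2) h3
      hh := fun w => by
        refine le_trans ?_ (hS.hcnt w)
        exact_mod_cast Set.ncard_le_ncard (fun c hc => hole_out c w hc) (Set.toFinite _)
      th0 := hth0
      th1 := hth1
      thLam := hthL }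

end Pool.Agent.NIB.H9
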