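import Mathlib
import Pool.Agent.Helper82_NIB.Stmts

/-!
# NIB: module CS2 (the contribution of the burned arcs)
-/

set_option autoImplicit false
set_option linter.unusedSectionVars false

open Finset Matrix

namespace Pool.Agent.NIB.H9

/-- Bound of `y` by `ub + 2 obar`. -/
lemma abs_yv_le {V : Type} [Fintype V] [DecidableEq V] {D : Cd V} (hD : D.Ok) (u v : V) :
    |yv D.ub D.om u v| ≤ D.ub u v + 2 * D.obar := by
  have h1 := hD.om2 u v
  have h2 := hD.om1 u v
  have h3 := hD.omo u v
  have h4 := hD.obar0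
  have hpos : 0 < D.om u v := by linarith
  unfold yv
  rcases hD.ub01 u v with h | h
  · rw [h, sub_zero, zero_add]
    have h5 : 1 / D.om u v - 1 = (1 - D.om u v) / D.om u v := by
      field_simp
    rw [h5, abs_of_nonneg (div_nonneg (by linarith) hpos.le), div_le_iff₀ hpos]
    nlinarith
  · rw [h, sub_self, zero_div, zero_sub, abs_neg, abs_one]
    linarith

theorem cs2 (hphh : CphhStmt) (hphF : CphfStmt) : Cs2Stmt := by
  intro V _ _ D hD
  have hth0 := hD.th0
  have hth1 := hD.th1
  have hPhi := hD.Phi0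
  have hta : (0 : ℝ) ≤ D.ta := Nat.cast_nonneg _
  have hob := hD.obar0
  have hphib : 0 ≤ D.phib := by
    unfold Cd.phib
    positivity
  have hphi : ∀ w, |D.phi w| ≤ D.phib := by
    intro w
    have h1 := (hphh V D hD).2.1 w
    have h2 := (hphF V D hD).1 w
    unfold Cd.phi Cd.phib
    exact (abs_add_le _ _).trans (add_le_add h1 h2)
  refine ⟨hphib, hphi, fun w => ?_⟩
  have hx0 : ∀ a b, 0 ≤ mat D.x a b := mat_nonneg hD.x0
  have hG : ∀ w', 0 ≤ Gf D.th D.sg w' ∧ Gf D.th D.sg w' ≤ 11 / 10 := by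
    intro w'
    have h1 := hD.sgrow w'
    have h2 : 0 ≤ rs D.sg w' := rs_nonneg (fun u v => by
      rcases hD.sg01 u v with h | h <;> rw [h] <;> norm_num) w'
    have h3 : (0 : ℝ) < 1 - D.th := by linarith
    unfold Gf
    constructor
    · exact div_nonneg (by linarith) h3.le
    · rw [div_le_iff₀ h3]
      linarith
  have hy : ∀ w', |mat (yv D.ub D.om) w w'| ≤ mat D.ub w w' + 2 * D.obar := by
    intro w'
    rcases w with ⟨a, _ | _⟩ <;> rcases w' with ⟨b, _ | _⟩
    · simp only [mat_ff, abs_zero, zero_add]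
      linarith
    · simp only [mat_ft]
      exact abs_yv_le hD _ _
    · simp only [mat_tf]
      exact abs_yv_le hD _ _
    · simp only [mat_tt, abs_zero, zero_add]
      linarith
  have hsplit : ∑ w', mat D.x w w' * Gf D.th D.sg w' * (1 + sgn w * (D.phi w - D.phi w')) *
        mat (yv D.ub D.om) w w' =
      ∑ w', mat D.x w w' * Gf D.th D.sg w' * mat (yv D.ub D.om) w w' +
      ∑ w', mat D.x w w' * Gf D.th D.sg w' * (sgn w * (D.phi w - D.phi w')) *
        mat (yv D.ub D.om) w w' := by
    rw [← Finset.sum_add_distrib]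
    exact Finset.sum_congr rfl fun w' _ => by ring
  rw [hsplit]
  refine (abs_add_le _ _).trans (add_le_add (hD.k6 w) ?_)
  have hsgn : |sgn w| = 1 := by
    rcases w with ⟨a, _ | _⟩ <;> simp [sgn]
  have hterm : ∀ w', |mat D.x w w' * Gf D.th D.sg w' * (sgn w * (D.phi w - D.phi w')) *
      mat (yv D.ub D.om) w w'| ≤
      22 / 10 * D.phib * (mat D.x w w' * mat D.ub w w' + 2 * D.obar * mat D.x w w') := by
    intro w'
    have h1 : |D.phi w - D.phi w'| ≤ 2 * D.phib := by
      have := abs_sub (D.phi w) (D.phi w')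
      have h2 := hphi w
      have h3 := hphi w'
      linarith
    rw [abs_mul, abs_mul, abs_mul, abs_mul, hsgn, one_mul, abs_of_nonneg (hx0 w w'),
      abs_of_nonneg (hG w').1]
    have h4 : 0 ≤ mat D.ub w w' + 2 * D.obar := (abs_nonneg _).trans (hy w')
    calc mat D.x w w' * Gf D.th D.sg w' * |D.phi w - D.phi w'| * |mat (yv D.ub D.om) w w'|
        ≤ mat D.x w w' * (11 / 10) * (2 * D.phib) * (mat D.ub w w' + 2 * D.obar) := by
          refine mul_le_mul (mul_le_mul (mul_le_mul_of_nonneg_left (hG w').2 (hx0 w w')) h1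
            (abs_nonneg _) ?_) (hy w') (abs_nonneg _) ?_
          · exact mul_nonneg (hx0 w w') (by norm_num)
          · exact mul_nonneg (mul_nonneg (hx0 w w') (by norm_num)) (by linarith)
      _ = _ := by ring
  calc |∑ w', mat D.x w w' * Gf D.th D.sg w' * (sgn w * (D.phi w - D.phi w')) *
        mat (yv D.ub D.om) w w'|
      ≤ ∑ w', 22 / 10 * D.phib * (mat D.x w w' * mat D.ub w w' + 2 * D.obar * mat D.x w w') :=
        (Finset.abs_sum_le_sum_abs _ _).trans (Finset.sum_le_sum fun w' _ => hterm w')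
    _ = 22 / 10 * D.phib * (∑ w', mat D.x w w' * mat D.ub w w' + 2 * D.obar * rs D.x w) := by
        rw [← Finset.mul_sum, Finset.sum_add_distrib, ← Finset.mul_sum]
        rfl
    _ ≤ 22 / 10 * D.phib * (D.B6 + 2 * D.obar) := by
        refine mul_le_mul_of_nonneg_left ?_ (by positivity)
        have h5 := hD.k7 w
        have h6 := hD.row w
        have h7 : 2 * D.obar * rs D.x w ≤ 2 * D.obar * 1 :=
          mul_le_mul_of_nonneg_left h6 (by linarith)
        linarith

end Pool.Agent.NIB.H9
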