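import Mathlib
import Pool.Agent.Helper82_NIB.Stmts

/-!
# NIB: module SMO (smoothing)
-/

set_option autoImplicit false
set_option linter.unusedSectionVars false

open Finset Matrix

namespace Pool.Agent.NIB.H9

/-- Total variation of the binomial coefficients. -/
lemma sum_abs_choose (n : ℕ) :
    1 + ∑ j ∈ range (n + 1), |(n.choose j : ℝ) - (n.choose (j + 1) : ℝ)| =
      2 * (n.choose (n / 2) : ℝ) := by
  set a : ℕ → ℝ := fun j => (n.choose j : ℝ) with ha
  have hm : n / 2 ≤ n + 1 := by omega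
  have h1 : ∑ j ∈ range (n / 2), |a j - a (j + 1)| = a (n / 2) - a 0 := by
    rw [← Finset.sum_range_sub]
    refine Finset.sum_congr rfl fun j hj => ?_
    have h2 : n.choose j ≤ n.choose (j + 1) :=
      Nat.choose_le_succ_of_lt_half_left (Finset.mem_range.1 hj)
    have h3 : a j ≤ a (j + 1) := by
      simp only [ha]
      exact_mod_cast h2
    rw [abs_sub_comm, abs_of_nonneg (by linarith)]
  have h2 : ∑ j ∈ Finset.Ico (n / 2) (n + 1), |a j - a (j + 1)| = a (n / 2) - a (n + 1) := by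
    have h4 : ∑ j ∈ Finset.Ico (n / 2) (n + 1), |a j - a (j + 1)| =
        ∑ j ∈ Finset.Ico (n / 2) (n + 1), -(a (j + 1) - a j) := by
      refine Finset.sum_congr rfl fun j hj => ?_
      have hj1 := (Finset.mem_Ico.1 hj).1
      have h5 : n.choose (j + 1) * (j + 1) = n.choose j * (n - j) := Nat.choose_succ_right_eq n j
      have h6 : n.choose (j + 1) ≤ n.choose j := by
        have h7 : n - j ≤ j + 1 := by omega
        have h8 : n.choose (j + 1) * (j + 1) ≤ n.choose j * (j + 1) := by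
          rw [h5]
          exact Nat.mul_le_mul_left _ h7
        exact Nat.le_of_mul_le_mul_right h8 (Nat.succ_pos j)
      have h9 : a (j + 1) ≤ a j := by
        simp only [ha]
        exact_mod_cast h6
      rw [abs_of_nonneg (by linarith)]
      ring
    rw [h4, Finset.sum_neg_distrib, Finset.sum_Ico_sub _ hm]
    ring
  have h3 : a (n + 1) = 0 := by simp [ha]
  have h4 : a 0 = 1 := by simp [ha]
  have h5 : ∑ j ∈ range (n + 1), |a j - a (j + 1)| =
      ∑ j ∈ range (n / 2), |a j - a (j + 1)| +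
        ∑ j ∈ Finset.Ico (n / 2) (n + 1), |a j - a (j + 1)| := by
    rw [Finset.sum_range_add_sum_Ico _ hm]
  rw [h5, h1, h2, h3, h4]
  ring

lemma centralBinom_sq (k : ℕ) : (k.centralBinom : ℝ) ^ 2 * (3 * k + 1) ≤ 16 ^ k := by
  induction k with
  | zero => simp
  | succ k ih =>
    have h1 : ((k : ℝ) + 1) * ((k + 1).centralBinom : ℝ) = 2 * (2 * k + 1) * (k.centralBinom : ℝ) := by
      exact_mod_cast Nat.succ_mul_centralBinom_succ k
    have hk : (0 : ℝ) ≤ k := Nat.cast_nonneg k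
    have h2 : ((k : ℝ) + 1) ^ 2 * (((k + 1).centralBinom : ℝ) ^ 2 * (3 * (k + 1) + 1)) =
        4 * (2 * k + 1) ^ 2 * (3 * (k + 1) + 1) * (k.centralBinom : ℝ) ^ 2 := by
      rw [← mul_assoc, ← mul_pow, h1]
      ring
    have h3 : 4 * (2 * (k : ℝ) + 1) ^ 2 * (3 * (k + 1) + 1) ≤ 16 * (k + 1) ^ 2 * (3 * k + 1) := by
      nlinarith
    have h4 : ((k : ℝ) + 1) ^ 2 * (((k + 1).centralBinom : ℝ) ^ 2 * (3 * (k + 1) + 1)) ≤
        ((k : ℝ) + 1) ^ 2 * 16 ^ (k + 1) := by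
      rw [h2]
      calc 4 * (2 * (k : ℝ) + 1) ^ 2 * (3 * (k + 1) + 1) * (k.centralBinom : ℝ) ^ 2
          ≤ 16 * (k + 1) ^ 2 * (3 * k + 1) * (k.centralBinom : ℝ) ^ 2 :=
            mul_le_mul_of_nonneg_right h3 (sq_nonneg _)
        _ = 16 * (k + 1) ^ 2 * ((k.centralBinom : ℝ) ^ 2 * (3 * k + 1)) := by ring
        _ ≤ 16 * (k + 1) ^ 2 * 16 ^ k := mul_le_mul_of_nonneg_left ih (by positivity)
        _ = _ := by ring
    have h5 := le_of_mul_le_mul_left h4 (by positivity)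
    push_cast
    exact h5

/-- Upper bound of the middle binomial coefficient. -/
lemma choose_half_sq (n : ℕ) : (n.choose (n / 2) : ℝ) ^ 2 * n ≤ 4 ^ n := by
  obtain ⟨k, hk | hk⟩ := Nat.even_or_odd' n
  · subst hk
    have h1 := centralBinom_sq k
    have h2 : (2 * k) / 2 = k := by omega
    rw [h2, ← Nat.centralBinom_eq_two_mul_choose]
    have hk : (0 : ℝ) ≤ k := Nat.cast_nonneg k
    have h3 : (4 : ℝ) ^ (2 * k) = 16 ^ k := by
      rw [pow_mul]
      norm_num
    rw [h3]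
    push_cast
    nlinarith [sq_nonneg (k.centralBinom : ℝ)]
  · subst hk
    have h1 := centralBinom_sq (k + 1)
    have h2 : (2 * k + 1) / 2 = k := by omega
    have h4 : (k + 1).centralBinom = 2 * (2 * k + 1).choose k := by
      rw [Nat.centralBinom_eq_two_mul_choose]
      have h5 : 2 * (k + 1) = (2 * k + 1) + 1 := by ring
      rw [h5, Nat.choose_succ_succ, Nat.choose_symm_half]
      ring
    rw [h2]
    rw [h4] at h1
    have hk : (0 : ℝ) ≤ k := Nat.cast_nonneg k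
    have h3 : (4 : ℝ) ^ (2 * k + 1) = 16 ^ (k + 1) / 4 := by
      rw [pow_succ, pow_mul, pow_succ]
      norm_num
      ring
    rw [h3]
    push_cast at h1 ⊢
    nlinarith [sq_nonneg ((2 * k + 1).choose k : ℝ)]

lemma choose_half_le {n : ℕ} (hn : 1 ≤ n) : (n.choose (n / 2) : ℝ) ≤ 2 ^ n / √n := by
  have hn' : (0 : ℝ) < n := by exact_mod_cast hn
  have hs : 0 < √(n : ℝ) := Real.sqrt_pos.2 hn'
  rw [le_div_iff₀ hs]
  have h1 := choose_half_sq n
  have h2 : ((n.choose (n / 2) : ℝ) * √n) ^ 2 ≤ (2 ^ n) ^ 2 := by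
    rw [mul_pow, Real.sq_sqrt hn'.le]
    refine h1.trans (le_of_eq ?_)
    rw [← pow_mul, mul_comm n 2, pow_mul]
    norm_num
  exact le_of_sq_le_sq h2 (by positivity)

theorem smo : SmoStmt := by
  intro W _ _ B ta f M hB0 hB hta hM hf a
  -- powers
  have hv : ∀ j : ℕ, ∀ a, |(B ^ j *ᵥ f) a| ≤ M := by
    intro j
    induction j with
    | zero => intro a; simpa using hf a
    | succ j ih =>
      intro a
      rw [pow_succ', ← Matrix.mulVec_mulVec]
      exact abs_mulVec_le hB0 hB hM ih a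
  have h1 : laz B ^ ta *ᵥ (B *ᵥ f - f) = (1 / 2 : ℝ) ^ ta •
      ∑ j ∈ range (ta + 1), (ta.choose j : ℝ) • (B ^ (j + 1) *ᵥ f - B ^ j *ᵥ f) := by
    have h2 : laz B ^ ta = (1 / 2 : ℝ) ^ ta • ∑ j ∈ range (ta + 1), (ta.choose j : ℝ) • B ^ j := by
      rw [laz, smul_pow, add_comm (1 : Matrix W W ℝ) B, (Commute.one_right B).add_pow]
      congr 1
      refine Finset.sum_congr rfl fun j _ => ?_
      rw [one_pow, mul_one, ← nsmul_eq_mul', Nat.cast_smul_eq_nsmul]
    rw [h2, Matrix.smul_mulVec, Matrix.sum_mulVec]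
    congr 1
    refine Finset.sum_congr rfl fun j _ => ?_
    rw [Matrix.smul_mulVec, Matrix.mulVec_sub, Matrix.mulVec_mulVec, ← pow_succ]
  have h3 : ∑ j ∈ range (ta + 1), (ta.choose j : ℝ) • (B ^ (j + 1) *ᵥ f - B ^ j *ᵥ f) =
      -(B ^ 0 *ᵥ f) + ∑ j ∈ range (ta + 1), ((ta.choose j : ℝ) - (ta.choose (j + 1) : ℝ)) •
        (B ^ (j + 1) *ᵥ f) := by
    simp only [smul_sub, sub_smul, Finset.sum_sub_distrib]
    have h4 : ∑ j ∈ range (ta + 1), (ta.choose j : ℝ) • (B ^ j *ᵥ f) =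
        ∑ j ∈ range (ta + 1), (ta.choose (j + 1) : ℝ) • (B ^ (j + 1) *ᵥ f) + B ^ 0 *ᵥ f := by
      have h5 : ∑ j ∈ range (ta + 1 + 1), (ta.choose j : ℝ) • (B ^ j *ᵥ f) =
          ∑ j ∈ range (ta + 1), (ta.choose j : ℝ) • (B ^ j *ᵥ f) := by
        rw [Finset.sum_range_succ]
        simp
      rw [← h5, Finset.sum_range_succ']
      simp
    rw [h4]
    abel
  have hta' : (0 : ℝ) < ta := by exact_mod_cast hta
  rw [h1, h3, Pi.smul_apply, Pi.add_apply, Pi.neg_apply, smul_eq_mul, abs_mul,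
    abs_of_nonneg (by positivity : (0 : ℝ) ≤ (1 / 2) ^ ta)]
  have h6 : |-(B ^ 0 *ᵥ f) a + (∑ j ∈ range (ta + 1),
      ((ta.choose j : ℝ) - (ta.choose (j + 1) : ℝ)) • (B ^ (j + 1) *ᵥ f)) a| ≤
      M * (2 * (ta.choose (ta / 2) : ℝ)) := by
    rw [← sum_abs_choose, mul_add, mul_one, Finset.mul_sum]
    refine (abs_add_le _ _).trans (add_le_add ?_ ?_)
    · rw [abs_neg]
      exact hv 0 a
    · rw [Finset.sum_apply]
      refine (Finset.abs_sum_le_sum_abs _ _).trans (Finset.sum_le_sum fun j _ => ?_)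
      rw [Pi.smul_apply, smul_eq_mul, abs_mul, mul_comm]
      exact mul_le_mul_of_nonneg_right (hv (j + 1) a) (abs_nonneg _)
  have h7 := choose_half_le hta
  calc (1 / 2 : ℝ) ^ ta * |-(B ^ 0 *ᵥ f) a + (∑ j ∈ range (ta + 1),
      ((ta.choose j : ℝ) - (ta.choose (j + 1) : ℝ)) • (B ^ (j + 1) *ᵥ f)) a|
      ≤ (1 / 2 : ℝ) ^ ta * (M * (2 * (2 ^ ta / √ta))) := by
        refine mul_le_mul_of_nonneg_left (h6.trans ?_) (by positivity)
        exact mul_le_mul_of_nonneg_left (by linarith) hM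
    _ = 2 / √ta * M := by
        have h8 : (1 / 2 : ℝ) ^ ta * 2 ^ ta = 1 := by
          rw [← mul_pow]
          norm_num
        calc (1 / 2 : ℝ) ^ ta * (M * (2 * (2 ^ ta / √ta)))
            = ((1 / 2 : ℝ) ^ ta * 2 ^ ta) * (2 / √ta * M) := by ring
          _ = _ := by rw [h8, one_mul]

end Pool.Agent.NIB.H9
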