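import Mathlib
import Pool.Agent.Helper82_NIB.Stmts

/-!
# NIB: module SMP (the sampling lemma)
-/

set_option autoImplicit false
set_option linter.unusedSectionVars false

open Finset Matrix

namespace Pool.Agent.NIB.H9

section

variable {W : Type} [Fintype W] [DecidableEq W]

open Classical in
/-- Nodes from which a lazy walk of length `j` can reach `z`. -/
noncomputable def bal (A : Matrix W W ℝ) (j : ℕ) (z : W) : Finset W :=
  univ.filter fun w => (laz A ^ j) w z ≠ 0

lemma mem_bal {A : Matrix W W ℝ} {j : ℕ} {w z : W} : w ∈ bal A j z ↔ (laz A ^ j) w z ≠ 0 := by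
  simp [bal]

lemma laz_ne_zero {A : Matrix W W ℝ} {a b : W} (h : laz A a b ≠ 0) : a = b ∨ A a b ≠ 0 := by
  by_contra hne
  push Not at hne
  apply h
  simp [laz, Matrix.add_apply, hne.1, hne.2]

lemma bal_succ_subset {A : Matrix W W ℝ} (j : ℕ) (z : W) :
    bal A (j + 1) z ⊆ (bal A j z).biUnion fun y => insert y (univ.filter fun w => A w y ≠ 0) := by
  classical
  intro w hw
  rw [mem_bal, pow_succ', Matrix.mul_apply] at hw
  obtain ⟨y, _, hy⟩ := Finset.exists_ne_zero_of_sum_ne_zero hw
  rw [Finset.mem_biUnion]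
  refine ⟨y, mem_bal.2 (right_ne_zero_of_mul hy), ?_⟩
  rw [Finset.mem_insert, Finset.mem_filter]
  rcases laz_ne_zero (left_ne_zero_of_mul hy) with h | h
  · exact Or.inl h
  · exact Or.inr ⟨Finset.mem_univ _, h⟩

lemma card_bal {A : Matrix W W ℝ} (hA : IsSub A) {kap : ℕ}
    (hk : ∀ a, ({b | A a b ≠ 0} : Set W).ncard ≤ kap) (j : ℕ) (z : W) :
    (bal A j z).card ≤ (kap + 1) ^ j := by
  classical
  induction j with
  | zero =>
    have h : bal A 0 z ⊆ {z} := by
      intro w hw
      rw [mem_bal, pow_zero, Matrix.one_apply] at hw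
      rw [Finset.mem_singleton]
      by_contra hne
      exact hw (by simp [hne])
    simpa using Finset.card_le_card h
  | succ j ih =>
    refine (Finset.card_le_card (bal_succ_subset j z)).trans ?_
    refine (Finset.card_biUnion_le_card_mul _ _ (kap + 1) fun y _ => ?_).trans ?_
    · refine (Finset.card_insert_le _ _).trans (Nat.succ_le_succ ?_)
      have h1 := hk y
      have h2 : ({b | A y b ≠ 0} : Set W) = ((univ.filter fun w => A w y ≠ 0 : Finset W) : Set W) := by
        ext w
        simp [hA.symm w y]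
      rw [h2, Set.ncard_coe_finset] at h1
      exact h1
    · rw [pow_succ]
      exact Nat.mul_le_mul_right _ ih

lemma bal_mono_succ {A : Matrix W W ℝ} (hA : IsSub A) (j : ℕ) (z : W) :
    bal A j z ⊆ bal A (j + 1) z := by
  intro w hw
  rw [mem_bal] at hw ⊢
  have h0 := laz_pow_nonneg hA.nonneg j w z
  have h1 : 0 < (laz A ^ j) w z := lt_of_le_of_ne h0 (Ne.symm hw)
  have h2 : 0 < laz A w w := by
    have := hA.nonneg w w
    simp only [laz, Matrix.smul_apply, Matrix.add_apply, Matrix.one_apply_eq, smul_eq_mul]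
    linarith
  rw [pow_succ', Matrix.mul_apply]
  refine ne_of_gt (lt_of_lt_of_le (mul_pos h2 h1) ?_)
  exact Finset.single_le_sum (f := fun y => laz A w y * (laz A ^ j) y z)
    (fun y _ => mul_nonneg (laz_nonneg hA.nonneg w y) (laz_pow_nonneg hA.nonneg j y z))
    (Finset.mem_univ w)

lemma bal_mono {A : Matrix W W ℝ} (hA : IsSub A) {i j : ℕ} (h : i ≤ j) (z : W) :
    bal A i z ⊆ bal A j z := by
  induction j, h using Nat.le_induction with
  | base => exact Finset.Subset.refl _
  | succ j _ ih => exact ih.trans (bal_mono_succ hA j z)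

lemma bal_symm {A : Matrix W W ℝ} (hA : IsSub A) (j : ℕ) (w z : W) :
    w ∈ bal A j z ↔ z ∈ bal A j w := by
  rw [mem_bal, mem_bal, laz_pow_symm hA.symm]

variable {np ta : ℕ}

lemma sum_cnt_row (ω : W × Fin np × Fin ta → Option W) (w : W) :
    ∑ z, cnt ω w z ≤ np * ta := by
  classical
  have h1 : ∑ z, cnt ω w z =
      ((univ : Finset W).biUnion fun z => univ.filter fun p : Fin np × Fin ta =>
        ω (w, p) = some z).card := by
    rw [Finset.card_biUnion]
    · rfl
    · intro z _ z' _ hne
      rw [Function.onFun, Finset.disjoint_left]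
      intro p hp hp'
      have e1 := (Finset.mem_filter.1 hp).2
      have e2 := (Finset.mem_filter.1 hp').2
      rw [e1] at e2
      exact hne (Option.some.inj e2)
  rw [h1]
  refine (Finset.card_le_univ _).trans ?_
  simp

lemma cnt_congr {ω ω' : W × Fin np × Fin ta → Option W} {w : W}
    (h : ∀ p, ω (w, p) = ω' (w, p)) (z : W) : cnt ω w z = cnt ω' w z := by
  unfold cnt
  congr 1
  ext p
  simp [h p]

lemma mem_of_cnt {A : Matrix W W ℝ} (hA : IsSub A) {ω : W × Fin np × Fin ta → Option W}
    (hω : ∀ i, 0 < swt A np ta i (ω i)) {w z : W} (h : cnt ω w z ≠ 0) :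
    w ∈ bal A (ta - 1) z := by
  obtain ⟨⟨i, j⟩, hp⟩ := Finset.card_ne_zero.1 h
  have e1 := (Finset.mem_filter.1 hp).2
  have e2 := hω (w, i, j)
  rw [e1] at e2
  refine bal_mono hA (Nat.le_sub_one_of_lt j.isLt) z (mem_bal.2 ?_)
  exact ne_of_gt e2

end

theorem smp (hlll : LllStmt) (hw : SmpwStmt) (h1 : Smp1Stmt) (h2 : Smp2Stmt) : SmpStmt := by
  intro W _ _ A de lam' np ta kap hA hde hde0 hk hta hlam hnp hL
  classical
  have hnp' : (0 : ℝ) < np := by linarith
  have hnpN : 1 ≤ np := by exact_mod_cast (show (1 : ℝ) ≤ np by linarith)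
  have hkap : 1 ≤ (kap + 1) ^ ta := Nat.one_le_pow _ _ (Nat.succ_pos _)
  have hball : ∀ z, (bal A (ta - 1) z).card ≤ (kap + 1) ^ ta := fun z =>
    (card_bal hA hk _ z).trans (Nat.pow_le_pow_right (Nat.succ_pos _) (Nat.sub_le _ _))
  obtain ⟨ω, hω1, hω2⟩ := hlll (W × Fin np × Fin ta) (Option W) (W ⊕ W) (swt A np ta)
    (fun e => match e with
      | .inl w => {ω | 4 * ta * lam' / np * de < nsq (A *ᵥ (ghs ω w - grn A ta *ᵥ dl w))}
      | .inr z => {ω | 2 * (np : ℝ) * ta < ∑ w ∈ bal A (ta - 1) z, (cnt ω w z : ℝ)})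
    (fun e => match e with
      | .inl w => {w} ×ˢ univ
      | .inr z => bal A (ta - 1) z ×ˢ univ)
    (np * ta * (kap + 1) ^ ta) (2 * (kap + 1) ^ ta) (2 * Real.exp (-lam'))
    (hw W A np ta hA)
    (by
      rintro (w | z) ω ω' hωω' hmem
      · simp only [Finset.mem_product, Finset.mem_singleton, Finset.mem_univ, and_true] at hωω'
        simp only [Set.mem_ofPred_eq] at hmem ⊢
        have e : ghs ω' w = ghs ω w := by
          funext z
          unfold ghs
          rw [cnt_congr (fun p => hωω' (w, p) rfl) z]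
        rw [e]
        exact hmem
      · simp only [Finset.mem_product, Finset.mem_univ, and_true] at hωω'
        simp only [Set.mem_ofPred_eq] at hmem ⊢
        have e : ∑ w ∈ bal A (ta - 1) z, (cnt ω' w z : ℝ) =
            ∑ w ∈ bal A (ta - 1) z, (cnt ω w z : ℝ) := by
          refine Finset.sum_congr rfl fun w hw => ?_
          rw [cnt_congr (fun p => hωω' (w, p) hw) z]
        rw [e]
        exact hmem)
    (by
      rintro (w | z)
      · simp only [Finset.card_product, Finset.card_singleton, one_mul, Finset.card_univ,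
          Fintype.card_prod, Fintype.card_fin]
        exact Nat.le_mul_of_pos_right _ hkap
      · simp only [Finset.card_product, Finset.card_univ, Fintype.card_prod, Fintype.card_fin]
        rw [mul_comm]
        exact Nat.mul_le_mul_left _ (hball z))
    (by
      rintro ⟨w, p⟩
      have hsub : ({e : W ⊕ W | (w, p) ∈ (match e with
          | .inl w => ({w} : Finset W) ×ˢ (univ : Finset (Fin np × Fin ta))
          | .inr z => bal A (ta - 1) z ×ˢ univ)} : Set (W ⊕ W)) ⊆
          (({Sum.inl w} ∪ (bal A (ta - 1) w).image Sum.inr : Finset (W ⊕ W)) : Set (W ⊕ W)) := by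
        rintro (w' | z) he
        · simp only [Set.mem_ofPred_eq, Finset.mem_product, Finset.mem_singleton,
            Finset.mem_univ, and_true] at he
          simp [he]
        · simp only [Set.mem_ofPred_eq, Finset.mem_product,
            Finset.mem_univ, and_true] at he
          simp only [Finset.coe_union, Finset.coe_singleton, Finset.coe_image, Set.mem_union,
            Set.mem_singleton_iff, Set.mem_image, Finset.mem_coe]
          exact Or.inr ⟨z, (bal_symm hA _ w z).1 he, rfl⟩
      refine (Set.ncard_le_ncard hsub (Set.toFinite _)).trans ?_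
      rw [Set.ncard_coe_finset]
      refine (Finset.card_union_le _ _).trans ?_
      have e1 : ((bal A (ta - 1) w).image (Sum.inr : W → W ⊕ W)).card ≤ (kap + 1) ^ ta :=
        Finset.card_image_le.trans (hball w)
      rw [Finset.card_singleton]
      omega)
    (by
      have : 0 < np * ta * (kap + 1) ^ ta := by positivity
      exact this)
    (by omega)
    (by
      rintro (w | z)
      · exact h1 W A de lam' np ta hA hde hde0 hta hlam hnp w
      · refine (Pr_mono (hw W A np ta hA) ?_).trans (h2 W A lam' np ta hA hta hlam hnp z)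
        intro ω hω
        simp only [Set.mem_ofPred_eq] at hω ⊢
        refine lt_of_lt_of_le hω ?_
        exact Finset.sum_le_sum_of_subset_of_nonneg (Finset.subset_univ _)
          fun _ _ _ => Nat.cast_nonneg _)
    (by
      refine le_trans (le_of_eq ?_) hL
      push_cast
      rw [two_mul ta, pow_add]
      ring)
  have ev1 : ∀ w, nsq (A *ᵥ (ghs ω w - grn A ta *ᵥ dl w)) ≤ 4 * ta * lam' / np * de := by
    intro w
    have := hω2 (.inl w)
    simpa only [Set.mem_ofPred_eq, not_lt] using this
  have ev2 : ∀ z, ∑ w ∈ bal A (ta - 1) z, (cnt ω w z : ℝ) ≤ 2 * (np : ℝ) * ta := by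
    intro z
    have := hω2 (.inr z)
    simpa only [Set.mem_ofPred_eq, not_lt] using this
  have hg : ∀ w z, ghs ω w z ≠ 0 → cnt ω w z ≠ 0 := by
    intro w z h h'
    exact h (by simp [ghs, h'])
  refine ⟨ghs ω, ?_, ?_, ev1, ?_, ?_⟩
  · intro w z
    unfold ghs
    positivity
  · intro w
    unfold ghs
    rw [← Finset.sum_div, div_le_div_iff₀ (by positivity) (by norm_num)]
    have h3 : (∑ z, (cnt ω w z : ℝ)) ≤ np * ta := by exact_mod_cast sum_cnt_row ω w
    linarith
  · intro w
    have h3 : ({z | ghs ω w z ≠ 0} : Set W) ⊆ ((univ.filter fun z => cnt ω w z ≠ 0 : Finset W) : Set W) := by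
      intro z hz
      simpa using hg w z hz
    refine (Set.ncard_le_ncard h3 (Set.toFinite _)).trans ?_
    rw [Set.ncard_coe_finset]
    refine le_trans ?_ (sum_cnt_row ω w)
    rw [Finset.card_eq_sum_ones, Finset.sum_filter]
    refine Finset.sum_le_sum fun z _ => ?_
    split_ifs with h4
    · exact Nat.one_le_iff_ne_zero.2 h4
    · exact Nat.zero_le _
  · intro z
    have h3 : ({w | ghs ω w z ≠ 0} : Set W) ⊆ (((bal A (ta - 1) z).filter fun w => cnt ω w z ≠ 0 : Finset W) : Set W) := by
      intro w hw'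
      have h5 := hg w z hw'
      rw [Finset.mem_coe, Finset.mem_filter]
      exact ⟨mem_of_cnt hA hω1 h5, h5⟩
    refine (Set.ncard_le_ncard h3 (Set.toFinite _)).trans ?_
    rw [Set.ncard_coe_finset]
    have h4 : ((bal A (ta - 1) z).filter fun w => cnt ω w z ≠ 0).card ≤
        ∑ w ∈ bal A (ta - 1) z, cnt ω w z := by
      rw [Finset.card_eq_sum_ones, Finset.sum_filter]
      refine Finset.sum_le_sum fun w _ => ?_
      split_ifs with h4
      · exact Nat.one_le_iff_ne_zero.2 h4
      · exact Nat.zero_le _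
    refine h4.trans ?_
    have h5 := ev2 z
    have h6 : ((∑ w ∈ bal A (ta - 1) z, cnt ω w z : ℕ) : ℝ) ≤ ((2 * (np * ta) : ℕ) : ℝ) := by
      push_cast
      linarith
    exact_mod_cast h6

end Pool.Agent.NIB.H9
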