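import Mathlib
import Pool.Agent.Helper82_NIB.Stmts

/-!
# NIB: modules SVA1 and SVA2 (variances of the influences)
-/

set_option autoImplicit false
set_option linter.unusedSectionVars false

open Finset Matrix

namespace Pool.Agent.NIB.H9

/-- Cauchy-Schwarz on a set of total weight at most one. -/
lemma cs_one {A : Type} (s : Finset A) (w g : A → ℝ) (hw : ∀ a ∈ s, 0 ≤ w a)
    (h1 : ∑ a ∈ s, w a ≤ 1) : (∑ a ∈ s, w a * |g a|) ^ 2 ≤ ∑ a ∈ s, w a * g a ^ 2 := by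
  have h0 : 0 ≤ ∑ a ∈ s, w a * g a ^ 2 :=
    Finset.sum_nonneg fun a ha => mul_nonneg (hw a ha) (sq_nonneg _)
  calc (∑ a ∈ s, w a * |g a|) ^ 2 ≤ (∑ a ∈ s, w a) * ∑ a ∈ s, w a * g a ^ 2 := by
        refine Finset.sum_sq_le_sum_mul_sum_of_sq_le_mul s hw
          (fun a ha => mul_nonneg (hw a ha) (sq_nonneg _)) fun a _ => ?_
        rw [mul_pow, sq_abs]
        exact le_of_eq (by ring)
    _ ≤ 1 * ∑ a ∈ s, w a * g a ^ 2 := mul_le_mul_of_nonneg_right h1 h0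
    _ = _ := one_mul _

/-- Fibrewise version. -/
lemma fib_cs {A B : Type} [Fintype A] [Fintype B] [DecidableEq B] (p : A → B) (w g : A → ℝ)
    (hw : ∀ a, 0 ≤ w a) (h1 : ∀ s, ∑ a with p a = s, w a ≤ 1) :
    ∑ s, (∑ a with p a = s, w a * |g a|) ^ 2 ≤ ∑ a, w a * g a ^ 2 := by
  calc ∑ s, (∑ a with p a = s, w a * |g a|) ^ 2
      ≤ ∑ s, ∑ a with p a = s, w a * g a ^ 2 :=
        Finset.sum_le_sum fun s _ => cs_one _ _ _ (fun a _ => hw a) (h1 s)
    _ = ∑ a, w a * g a ^ 2 := by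
        rw [Finset.sum_fiberwise]

variable {V C : Type} [Fintype V] [DecidableEq V] [Fintype C] [DecidableEq C]

lemma Qf_eq (x kp : V → V → ℝ) : Qf x kp = ∑ a : V × V, x a.1 a.2 * kp a.1 a.2 ^ 2 := by
  rw [Qf, Fintype.sum_prod_type]

lemma sum_tail (f : V × V → ℝ) (u : V) : ∑ a with a.1 = u, f a = ∑ v, f (u, v) := by
  rw [Finset.sum_filter, Fintype.sum_prod_type]
  rw [Finset.sum_eq_single u]
  · simp
  · intro u' _ hu'
    simp [hu']
  · simp

lemma sum_head (f : V × V → ℝ) (v : V) : ∑ a with a.2 = v, f a = ∑ u, f (u, v) := by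
  rw [Finset.sum_filter, Fintype.sum_prod_type]
  simp

lemma row_out {b : Bm V C} {de Lam h : ℝ} {kap : ℕ} (hb : b.Ok de Lam h kap) (c : C) (u : V) :
    ∑ a : V × V with a.1 = u, b.x c a.1 a.2 ≤ 1 := by
  rw [sum_tail (fun a => b.x c a.1 a.2)]
  have := hb.row c (u, true)
  rwa [rs_out] at this

lemma row_in {b : Bm V C} {de Lam h : ℝ} {kap : ℕ} (hb : b.Ok de Lam h kap) (c : C) (v : V) :
    ∑ a : V × V with a.2 = v, b.x c a.1 a.2 ≤ 1 := by
  rw [sum_head (fun a => b.x c a.1 a.2)]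
  have := hb.row c (v, false)
  rwa [rs_inn] at this

/-- Sum over tails with start `s`. -/
lemma row_st {b : Bm V C} {de Lam h : ℝ} {kap : ℕ} (hb : b.Ok de Lam h kap) (c : C) (s : V) :
    ∑ a : V × V with b.st c a.1 = s, b.x c a.1 a.2 ≤ 1 := by
  by_cases hex : ∃ a : V × V, b.st c a.1 = s ∧ b.x c a.1 a.2 ≠ 0
  · obtain ⟨a0, ha0, hx0⟩ := hex
    calc ∑ a : V × V with b.st c a.1 = s, b.x c a.1 a.2
        ≤ ∑ a : V × V with a.1 = a0.1, b.x c a.1 a.2 := by
          rw [← Finset.sum_filter_ne_zero]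
          refine Finset.sum_le_sum_of_subset_of_nonneg ?_ fun a _ _ => hb.x0 c _ _
          intro a ha
          simp only [Finset.mem_filter, Finset.mem_univ, true_and] at ha ⊢
          exact hb.stInj c a.1 a0.1 a.2 a0.2 ha.2 hx0 (ha.1.trans ha0.symm)
      _ ≤ 1 := row_out hb c a0.1
  · push Not at hex
    rw [Finset.sum_eq_zero]
    · norm_num
    · intro a ha
      simp only [Finset.mem_filter, Finset.mem_univ, true_and] at ha
      exact hex a ha

/-- A sum over a set of arcs contained in a union of two sets. -/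
lemma sum_or_le {A : Type} [Fintype A] (f : A → ℝ) (hf : ∀ a, 0 ≤ f a) (P Q R : A → Prop)
    [DecidablePred P] [DecidablePred Q] [DecidablePred R] (h : ∀ a, P a → Q a ∨ R a) :
    ∑ a with P a, f a ≤ ∑ a with Q a, f a + ∑ a with R a, f a := by
  classical
  calc ∑ a with P a, f a ≤ ∑ a ∈ (univ.filter Q) ∪ (univ.filter R), f a := by
        refine Finset.sum_le_sum_of_subset_of_nonneg ?_ fun a _ _ => hf a
        intro a ha
        simp only [Finset.mem_filter, Finset.mem_univ, true_and, Finset.mem_union] at ha ⊢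
        exact h a ha
    _ ≤ _ := by
        rw [← Finset.sum_union_inter]
        exact le_add_of_nonneg_right (Finset.sum_nonneg fun a _ => hf a)

lemma sum_val (f : Val C → ℝ) :
    ∑ s, f s = f none + ∑ c, (f (some (c, true)) + f (some (c, false))) := by
  rw [Fintype.sum_option, Fintype.sum_prod_type]
  congr 1
  refine Finset.sum_congr rfl fun c _ => ?_
  simp

theorem sva2 : Sva2Stmt := by
  intro V C _ _ _ _ b de Lam h kap kp hb
  have hth0 := hb.th0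
  have hth1 := hb.th1
  have key : ∀ c, ∑ s0, b.ifc kp (.inr (c, s0)) (some (c, true)) ^ 2 ≤
      256 * b.th ^ 2 * Qf (b.x c) (kp c) := by
    intro c
    set K1 : V → ℝ := fun s0 => ∑ a : V × V with b.st c a.1 = s0, b.x c a.1 a.2 * |kp c a.1 a.2|
      with hK1
    set K2 : V → ℝ := fun s0 => ∑ a : V × V with a.2 = s0, b.x c a.1 a.2 * |kp c a.1 a.2|
      with hK2
    have e1 : ∑ s0, K1 s0 ^ 2 ≤ Qf (b.x c) (kp c) := by
      rw [Qf_eq]
      exact fib_cs (fun a : V × V => b.st c a.1) (fun a => b.x c a.1 a.2) (fun a => kp c a.1 a.2)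
        (fun a => hb.x0 c _ _) (row_st hb c)
    have e2 : ∑ s0, K2 s0 ^ 2 ≤ Qf (b.x c) (kp c) := by
      rw [Qf_eq]
      exact fib_cs (fun a : V × V => a.2) (fun a => b.x c a.1 a.2) (fun a => kp c a.1 a.2)
        (fun a => hb.x0 c _ _) (row_in hb c)
    have e3 : ∀ s0, 0 ≤ b.ifc kp (.inr (c, s0)) (some (c, true)) ∧
        b.ifc kp (.inr (c, s0)) (some (c, true)) ≤ 8 * b.th * (K1 s0 + K2 s0) := by
      intro s0
      have hnn : ∀ a : V × V, 0 ≤ b.q c a * |kp c a.1 a.2| := fun a =>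
        mul_nonneg (mul_nonneg (by linarith) (hb.x0 c _ _)) (abs_nonneg _)
      constructor
      · simp only [Bm.ifc]
        exact Finset.sum_nonneg fun a _ => hnn a
      · simp only [Bm.ifc]
        refine (sum_or_le (fun a : V × V => b.q c a * |kp c a.1 a.2|) hnn _
          (fun a => b.st c a.1 = s0) (fun a => a.2 = s0) fun a ha => ha.2).trans (le_of_eq ?_)
        rw [mul_add, hK1, hK2]
        simp only [Finset.mul_sum]
        congr 1 <;> exact Finset.sum_congr rfl fun a _ => by simp only [Bm.q]; ring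
    have e4 : ∀ s0, b.ifc kp (.inr (c, s0)) (some (c, true)) ^ 2 ≤
        128 * b.th ^ 2 * (K1 s0 ^ 2 + K2 s0 ^ 2) := by
      intro s0
      have h1 := pow_le_pow_left₀ (e3 s0).1 (e3 s0).2 2
      have h2 : (K1 s0 + K2 s0) ^ 2 ≤ 2 * (K1 s0 ^ 2 + K2 s0 ^ 2) := add_sq_le
      have h3 : (8 * b.th * (K1 s0 + K2 s0)) ^ 2 = 64 * b.th ^ 2 * (K1 s0 + K2 s0) ^ 2 := by ring
      have h4 := mul_le_mul_of_nonneg_left h2 (show 0 ≤ 64 * b.th ^ 2 by positivity)
      linarith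
    calc ∑ s0, b.ifc kp (.inr (c, s0)) (some (c, true)) ^ 2
        ≤ ∑ s0, 128 * b.th ^ 2 * (K1 s0 ^ 2 + K2 s0 ^ 2) := Finset.sum_le_sum fun s _ => e4 s
      _ = 128 * b.th ^ 2 * (∑ s0, K1 s0 ^ 2 + ∑ s0, K2 s0 ^ 2) := by
          rw [← Finset.mul_sum, Finset.sum_add_distrib]
      _ ≤ 128 * b.th ^ 2 * (Qf (b.x c) (kp c) + Qf (b.x c) (kp c)) :=
          mul_le_mul_of_nonneg_left (add_le_add e1 e2) (by positivity)
      _ = _ := by ring
  have e5 : ∀ p : C × V, ∑ s, b.wt (.inr p) s * b.ifc kp (.inr p) s ^ 2 =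
      (1 / 2) * b.ifc kp (.inr p) (some (p.1, true)) ^ 2 := by
    rintro ⟨c, s0⟩
    rw [sum_val]
    have h0 : b.wt (.inr (c, s0)) none * b.ifc kp (.inr (c, s0)) none ^ 2 = 0 := by
      simp [Bm.ifc]
    rw [h0, zero_add, Finset.sum_eq_single c]
    · simp [Bm.wt]
    · intro c' _ hc'
      simp [Bm.wt, hc']
    · simp
  rw [Fintype.sum_congr _ _ e5, Fintype.sum_prod_type]
  rw [Finset.mul_sum]
  refine Finset.sum_le_sum fun c _ => ?_
  rw [← Finset.mul_sum]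
  have hQ : 0 ≤ Qf (b.x c) (kp c) := by
    rw [Qf_eq]
    exact Finset.sum_nonneg fun a _ => mul_nonneg (hb.x0 c _ _) (sq_nonneg _)
  have h5 := key c
  have h6 : b.th ^ 2 * Qf (b.x c) (kp c) ≤ 1 / 200 * b.th * Qf (b.x c) (kp c) := by
    refine mul_le_mul_of_nonneg_right ?_ hQ
    nlinarith
  have h7 : 0 ≤ b.th * Qf (b.x c) (kp c) := mul_nonneg hth0.le hQ
  dsimp only
  nlinarith

theorem sva1 : Sva1Stmt := by
  intro V C _ _ _ _ b de Lam h kap kp hb
  have hth0 := hb.th0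
  have hth1 := hb.th1
  have hq0 : ∀ c a, 0 ≤ b.q c a := fun c a => mul_nonneg (by linarith) (hb.x0 c _ _)
  have e5 : ∀ a : V × V, ∑ s, b.wt (.inl a) s * b.ifc kp (.inl a) s ^ 2 =
      ∑ c, b.q c a * b.ifc kp (.inl a) (some (c, true)) ^ 2 := by
    intro a
    rw [sum_val]
    have h0 : b.wt (.inl a) none * b.ifc kp (.inl a) none ^ 2 = 0 := by
      simp [Bm.ifc]
    rw [h0, zero_add]
    refine Finset.sum_congr rfl fun c _ => ?_
    simp only [Bm.wt, Bm.ifc]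
    ring
  rw [Fintype.sum_congr _ _ e5, Finset.sum_comm, Finset.mul_sum]
  refine Finset.sum_le_sum fun c _ => ?_
  have hQ : 0 ≤ Qf (b.x c) (kp c) := by
    rw [Qf_eq]
    exact Finset.sum_nonneg fun a _ => mul_nonneg (hb.x0 c _ _) (sq_nonneg _)
  set K1 : V → ℝ := fun u => ∑ a : V × V with a.1 = u, b.x c a.1 a.2 * |kp c a.1 a.2| with hK1
  set K2 : V → ℝ := fun u => ∑ a : V × V with a.2 = u, b.x c a.1 a.2 * |kp c a.1 a.2| with hK2
  have e1 : ∑ u, K1 u ^ 2 ≤ Qf (b.x c) (kp c) := by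
    rw [Qf_eq]
    exact fib_cs (fun a : V × V => a.1) (fun a => b.x c a.1 a.2) (fun a => kp c a.1 a.2)
      (fun a => hb.x0 c _ _) (row_out hb c)
  have e2 : ∑ u, K2 u ^ 2 ≤ Qf (b.x c) (kp c) := by
    rw [Qf_eq]
    exact fib_cs (fun a : V × V => a.2) (fun a => b.x c a.1 a.2) (fun a => kp c a.1 a.2)
      (fun a => hb.x0 c _ _) (row_in hb c)
  have e3 : ∀ a : V × V, 0 ≤ b.ifc kp (.inl a) (some (c, true)) ∧
      b.ifc kp (.inl a) (some (c, true)) ≤
        |kp c a.1 a.2| + 8 * b.th * (K1 a.1 + K2 a.2) := by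
    intro a
    have hnn : ∀ a : V × V, 0 ≤ b.q c a * |kp c a.1 a.2| := fun a =>
      mul_nonneg (hq0 c a) (abs_nonneg _)
    constructor
    · simp only [Bm.ifc]
      exact add_nonneg (abs_nonneg _) (Finset.sum_nonneg fun a _ => hnn a)
    · simp only [Bm.ifc]
      refine add_le_add le_rfl ?_
      refine (sum_or_le (fun a : V × V => b.q c a * |kp c a.1 a.2|) hnn _
          (fun a' => a'.1 = a.1) (fun a' => a'.2 = a.2) fun a' ha' => ?_).trans (le_of_eq ?_)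
      · simp only [Bm.blk, Finset.mem_filter, Finset.mem_univ, true_and] at ha'
        rcases ha'.2.1 with h1 | h1
        · exact Or.inl h1.symm
        · exact Or.inr h1.symm
      · rw [mul_add, hK1, hK2]
        simp only [Finset.mul_sum]
        congr 1 <;> exact Finset.sum_congr rfl fun a _ => by simp only [Bm.q]; ring
  have e4 : ∀ a : V × V, b.ifc kp (.inl a) (some (c, true)) ^ 2 ≤
      2 * kp c a.1 a.2 ^ 2 + 256 * b.th ^ 2 * (K1 a.1 ^ 2 + K2 a.2 ^ 2) := by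
    intro a
    have h1 := pow_le_pow_left₀ (e3 a).1 (e3 a).2 2
    have h2 : (K1 a.1 + K2 a.2) ^ 2 ≤ 2 * (K1 a.1 ^ 2 + K2 a.2 ^ 2) := add_sq_le
    have h3 : (|kp c a.1 a.2| + 8 * b.th * (K1 a.1 + K2 a.2)) ^ 2 ≤
      2 * (|kp c a.1 a.2| ^ 2 + (8 * b.th * (K1 a.1 + K2 a.2)) ^ 2) := add_sq_le
    rw [sq_abs] at h3
    have h4 : (8 * b.th * (K1 a.1 + K2 a.2)) ^ 2 = 64 * b.th ^ 2 * (K1 a.1 + K2 a.2) ^ 2 := by
      ring
    have h5 := mul_le_mul_of_nonneg_left h2 (show 0 ≤ 64 * b.th ^ 2 by positivity)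
    linarith
  have f1 : ∑ a : V × V, b.x c a.1 a.2 * K1 a.1 ^ 2 ≤ ∑ u, K1 u ^ 2 := by
    rw [← Finset.sum_fiberwise (g := fun a : V × V => a.1)]
    refine Finset.sum_le_sum fun u _ => ?_
    calc ∑ a : V × V with a.1 = u, b.x c a.1 a.2 * K1 a.1 ^ 2
        = (∑ a : V × V with a.1 = u, b.x c a.1 a.2) * K1 u ^ 2 := by
          rw [Finset.sum_mul]
          refine Finset.sum_congr rfl fun a ha => ?_
          rw [(Finset.mem_filter.1 ha).2]
      _ ≤ 1 * K1 u ^ 2 := mul_le_mul_of_nonneg_right (row_out hb c u) (sq_nonneg _)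
      _ = _ := one_mul _
  have f2 : ∑ a : V × V, b.x c a.1 a.2 * K2 a.2 ^ 2 ≤ ∑ u, K2 u ^ 2 := by
    rw [← Finset.sum_fiberwise (g := fun a : V × V => a.2)]
    refine Finset.sum_le_sum fun u _ => ?_
    calc ∑ a : V × V with a.2 = u, b.x c a.1 a.2 * K2 a.2 ^ 2
        = (∑ a : V × V with a.2 = u, b.x c a.1 a.2) * K2 u ^ 2 := by
          rw [Finset.sum_mul]
          refine Finset.sum_congr rfl fun a ha => ?_
          rw [(Finset.mem_filter.1 ha).2]
      _ ≤ 1 * K2 u ^ 2 := mul_le_mul_of_nonneg_right (row_in hb c u) (sq_nonneg _)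
      _ = _ := one_mul _
  have g1 : ∑ a, b.q c a * b.ifc kp (.inl a) (some (c, true)) ^ 2 ≤
      ∑ a : V × V, 8 * b.th * (2 * (b.x c a.1 a.2 * kp c a.1 a.2 ^ 2) +
        256 * b.th ^ 2 * (b.x c a.1 a.2 * K1 a.1 ^ 2 + b.x c a.1 a.2 * K2 a.2 ^ 2)) := by
    refine Finset.sum_le_sum fun a _ => ?_
    refine (mul_le_mul_of_nonneg_left (e4 a) (hq0 c a)).trans (le_of_eq ?_)
    simp only [Bm.q]
    ring
  have g2 : ∑ a : V × V, 8 * b.th * (2 * (b.x c a.1 a.2 * kp c a.1 a.2 ^ 2) +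
        256 * b.th ^ 2 * (b.x c a.1 a.2 * K1 a.1 ^ 2 + b.x c a.1 a.2 * K2 a.2 ^ 2)) =
      8 * b.th * (2 * Qf (b.x c) (kp c) + 256 * b.th ^ 2 *
        (∑ a : V × V, b.x c a.1 a.2 * K1 a.1 ^ 2 + ∑ a : V × V, b.x c a.1 a.2 * K2 a.2 ^ 2)) := by
    rw [← Finset.mul_sum, Finset.sum_add_distrib, ← Finset.mul_sum, ← Finset.mul_sum,
      Finset.sum_add_distrib, Qf_eq]
  have g3 : ∑ a : V × V, b.x c a.1 a.2 * K1 a.1 ^ 2 + ∑ a : V × V, b.x c a.1 a.2 * K2 a.2 ^ 2 ≤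
      2 * Qf (b.x c) (kp c) := by linarith
  have g4 : 256 * b.th ^ 2 * (∑ a : V × V, b.x c a.1 a.2 * K1 a.1 ^ 2 +
      ∑ a : V × V, b.x c a.1 a.2 * K2 a.2 ^ 2) ≤ 1 / 4 * Qf (b.x c) (kp c) := by
    have h1 := mul_le_mul_of_nonneg_left g3 (show 0 ≤ 256 * b.th ^ 2 by positivity)
    have h2 : b.th ^ 2 ≤ 1 / 40000 := by nlinarith
    have h3 := mul_le_mul_of_nonneg_right h2 hQ
    nlinarith
  rw [g2] at g1
  have g5 := mul_le_mul_of_nonneg_left (add_le_add_left g4 (2 * Qf (b.x c) (kp c)))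
    (show 0 ≤ 8 * b.th by positivity)
  refine g1.trans ?_
  nlinarith

end Pool.Agent.NIB.H9
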